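import Mathlib

set_option autoImplicit false

namespace Pool.Agent.H634R3.AA.Param

theorem sq_of_cop {a b c : ℕ} (hab : Nat.Coprime a b) (h : a * b = c ^ 2) : ∃ d, a = d ^ 2 := by
  have hu : IsUnit (gcd a b) := by
    rw [gcd_eq_nat_gcd, hab.gcd_eq_one]
    exact isUnit_one
  exact exists_eq_pow_of_mul_eq_pow hu h

theorem param (v k lam : ℕ) (hk : 2 ≤ k) (hkv : k + 2 ≤ v) (h : lam * (v - 1) = k * (k - 1))
    (hs : IsSquare (k * (v - 1 - k))) : ∃ r s b c : ℕ, 1 ≤ r ∧ 1 ≤ s ∧ 1 ≤ b ∧ 1 ≤ c ∧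
      k = r ^ 2 * b ∧ v = 1 + b * (r ^ 2 + s ^ 2) ∧ lam = r ^ 2 * c ∧
      r ^ 2 * b = 1 + c * (r ^ 2 + s ^ 2) := by
  obtain ⟨w, hw⟩ : ∃ w, w = v - 1 := ⟨_, rfl⟩
  rw [← hw] at h hs
  have hkw : k < w := by omega
  have hb : 0 < Nat.gcd k w := Nat.gcd_pos_of_pos_left _ (by omega)
  obtain ⟨b, hbdef⟩ : ∃ b, b = Nat.gcd k w := ⟨_, rfl⟩
  obtain ⟨a, ha⟩ : b ∣ k := hbdef ▸ Nat.gcd_dvd_left k w
  obtain ⟨d, hd⟩ : b ∣ w := hbdef ▸ Nat.gcd_dvd_right k w
  have hb0 : 0 < b := hbdef ▸ hb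
  have hcop : Nat.Coprime a d := by
    have h1 : Nat.gcd (b * a) (b * d) = b * Nat.gcd a d := Nat.gcd_mul_left b a d
    rw [← ha, ← hd, ← hbdef] at h1
    have h2 : b * Nat.gcd a d = b * 1 := by omega
    exact Nat.eq_of_mul_eq_mul_left hb0 h2
  have had : a < d := by
    have : b * a < b * d := by rw [← ha, ← hd]; exact hkw
    exact lt_of_mul_lt_mul_left this (Nat.zero_le b)
  obtain ⟨e, he⟩ : ∃ e, d = a + e := ⟨d - a, by omega⟩
  have he0 : 0 < e := by omega
  have ha0 : 0 < a := by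
    rcases Nat.eq_zero_or_pos a with h0 | h0
    · rw [h0] at ha; omega
    · exact h0
  have hcop' : Nat.Coprime a e := by
    rw [he] at hcop
    simpa using hcop
  obtain ⟨t, ht⟩ := hs
  have hwk : w - k = b * e := by
    rw [hd, ha, he]
    rw [Nat.mul_add]
    omega
  have ht2 : b ^ 2 * (a * e) = t ^ 2 := by
    rw [hwk, ha] at ht
    calc b ^ 2 * (a * e) = b * a * (b * e) := by ring
      _ = t * t := ht
      _ = t ^ 2 := by ring
  have hbt : b ∣ t := by
    have : b ^ 2 ∣ t ^ 2 := ⟨a * e, ht2.symm⟩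
    exact (Nat.pow_dvd_pow_iff (by norm_num)).1 this
  obtain ⟨u, hu⟩ := hbt
  have hae : a * e = u ^ 2 := by
    rw [hu, mul_pow] at ht2
    exact Nat.eq_of_mul_eq_mul_left (by positivity) ht2
  obtain ⟨r, hr⟩ := sq_of_cop hcop' hae
  obtain ⟨s, hs'⟩ := sq_of_cop hcop'.symm (by rw [mul_comm]; exact hae)
  have h3 : lam * d = a * (b * a - 1) := by
    have h4 : b * (lam * d) = b * (a * (b * a - 1)) := by
      calc b * (lam * d) = lam * (b * d) := by ring
        _ = lam * w := by rw [← hd]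
        _ = k * (k - 1) := h
        _ = b * a * (b * a - 1) := by rw [← ha]
        _ = b * (a * (b * a - 1)) := by ring
    exact Nat.eq_of_mul_eq_mul_left hb0 h4
  have h5 : d ∣ b * a - 1 := by
    have : d ∣ a * (b * a - 1) := ⟨lam, by rw [← h3]; ring⟩
    exact hcop.symm.dvd_of_dvd_mul_left this
  obtain ⟨c, hc⟩ := h5
  have hd0 : 0 < d := by omega
  have hlam : lam = a * c := by
    rw [hc] at h3
    have : d * lam = d * (a * c) := by
      calc d * lam = lam * d := by ring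
        _ = a * (d * c) := h3
        _ = d * (a * c) := by ring
    exact Nat.eq_of_mul_eq_mul_left hd0 this
  have hba : b * a = 1 + d * c := by
    rw [← hc]
    rw [ha] at hk
    omega
  have hc0 : 0 < c := by
    rcases Nat.eq_zero_or_pos c with h0 | h0
    · rw [h0, mul_zero, ← ha] at hba
      omega
    · exact h0
  have hr0 : 0 < r := by
    rcases Nat.eq_zero_or_pos r with h0 | h0
    · rw [h0] at hr; simp at hr; omega
    · exact h0
  have hs0 : 0 < s := by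
    rcases Nat.eq_zero_or_pos s with h0 | h0
    · rw [h0] at hs'; simp at hs'; omega
    · exact h0
  refine ⟨r, s, b, c, hr0, hs0, hb0, hc0, ?_, ?_, ?_, ?_⟩
  · rw [← hr, ha]; ring
  · rw [← hr, ← hs', ← he, ← hd]; omega
  · rw [← hr]; exact hlam
  · rw [← hr, ← hs', ← he, mul_comm a b, mul_comm c d]; exact hba

end Pool.Agent.H634R3.AA.Param
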