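import Mathlib
import Pool.Agent.H634R3.WG.HadT

set_option autoImplicit false

/-!
# Symmetric designs with `k (v - 1 - k)` a square and a solvable point-transitive group
-/

namespace Pool.Agent.H634R3.AA

open Finset Pool.Agent.H634R3.PPC Pool.Agent.H951R4.OD MulAction Pool.Agent.H634R3.WG
  Pool.Agent.H634R3.WG.Lam

/-- `s ^ 2 v` as a function of `(k - lam) / r ^ 2` -/
def fr (r s : ℕ) (n : ℕ) : ℤ := ((r : ℤ) ^ 2 + (s : ℤ) ^ 2) ^ 2 * (n : ℤ) - (r : ℤ) ^ 2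

/-- excluded primes -/
def cr (r s : ℕ) : ℕ := 2 * r * s * (r ^ 2 + s ^ 2)

theorem dvd_cr {r s q : ℕ} (h : ¬ q ∣ cr r s) : q ≠ 2 ∧ ¬ q ∣ r ∧ ¬ q ∣ s ∧ ¬ q ∣ r ^ 2 + s ^ 2 := by
  unfold cr at h
  refine ⟨?_, ?_, ?_, ?_⟩
  · rintro rfl
    exact h ⟨r * s * (r ^ 2 + s ^ 2), by ring⟩
  · rintro ⟨w, hw⟩
    exact h ⟨2 * w * s * (r ^ 2 + s ^ 2), by rw [hw]; ring⟩
  · rintro ⟨w, hw⟩
    exact h ⟨2 * r * w * (r ^ 2 + s ^ 2), by rw [hw]; ring⟩
  · rintro ⟨w, hw⟩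
    exact h ⟨2 * r * s * w, by rw [hw]; ring⟩

theorem pol_lin {r s : ℕ} (hr : 1 ≤ r) (hs : 1 ≤ s) : Pol (fr r s) (cr r s) 0 (-1) where
  pos := by
    unfold cr
    positivity
  two := ⟨r * s * (r ^ 2 + s ^ 2), by unfold cr; ring⟩
  e01 := Or.inl rfl
  neg := by norm_num
  per := by
    intro q n
    refine ⟨((r : ℤ) ^ 2 + (s : ℤ) ^ 2) ^ 2, ?_⟩
    unfold fr
    push_cast
    ring
  cnt := by
    intro q hq hqc
    have hF : Fact q.Prime := ⟨hq⟩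
    obtain ⟨hq2, hqr, hqs, hqd⟩ := dvd_cr hqc
    have hd : ((r : ZMod q) ^ 2 + (s : ZMod q) ^ 2) ^ 2 ≠ 0 := by
      apply pow_ne_zero
      intro h
      have h' : ((r ^ 2 + s ^ 2 : ℕ) : ZMod q) = 0 := by
        push_cast
        exact h
      rw [ZMod.natCast_eq_zero_iff] at h'
      exact hqd h'
    set d : ZMod q := ((r : ZMod q) ^ 2 + (s : ZMod q) ^ 2) ^ 2 with hdd
    have hset : (range q).filter (fun n : ℕ => (q : ℤ) ∣ fr r s n) =
        {(d⁻¹ * (r : ZMod q) ^ 2).val} := by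
      ext n
      rw [Finset.mem_filter, Finset.mem_range, Finset.mem_singleton,
        ← ZMod.intCast_zmod_eq_zero_iff_dvd]
      unfold fr
      push_cast
      rw [← hdd]
      constructor
      · rintro ⟨h1, h3⟩
        have h5 : (n : ZMod q) = d⁻¹ * (r : ZMod q) ^ 2 := by
          apply mul_left_cancel₀ hd
          rw [mul_inv_cancel_left₀ hd]
          linear_combination h3
        rw [← h5, ZMod.val_natCast, Nat.mod_eq_of_lt h1]
      · rintro rfl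
        refine ⟨ZMod.val_lt _, ?_⟩
        rw [ZMod.natCast_zmod_val, mul_inv_cancel_left₀ hd, sub_self]
    rw [hset]
    simp

theorem polX_lin {r s : ℕ} (hr : 1 ≤ r) (hs : 1 ≤ s) : PolX (fr r s) (cr r s) 0 (-1) where
  toPol := pol_lin hr hs
  lift := by
    intro q hq hqc a _
    obtain ⟨hq2, hqr, hqs, hqd⟩ := dvd_cr hqc
    rw [Finset.card_le_one]
    intro j hj j' hj'
    rw [Finset.mem_filter, Finset.mem_range] at hj hj'
    obtain ⟨h1, h2⟩ := hj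
    obtain ⟨h3, h4⟩ := hj'
    have h5 := dvd_sub h2 h4
    have h6 : fr r s (a + q * j) - fr r s (a + q * j') =
        q * (((r : ℤ) ^ 2 + (s : ℤ) ^ 2) ^ 2 * ((j : ℤ) - j')) := by
      unfold fr
      push_cast
      ring
    rw [h6, pow_two (q : ℤ)] at h5
    have hq0 : (q : ℤ) ≠ 0 := by exact_mod_cast hq.ne_zero
    have h7 : (q : ℤ) ∣ ((r : ℤ) ^ 2 + (s : ℤ) ^ 2) ^ 2 * ((j : ℤ) - j') :=
      (mul_dvd_mul_iff_left hq0).1 h5
    have hcop : IsCoprime (q : ℤ) (((r : ℤ) ^ 2 + (s : ℤ) ^ 2) ^ 2) := by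
      have h9 : Nat.Coprime q (r ^ 2 + s ^ 2) := (Nat.Prime.coprime_iff_not_dvd hq).2 hqd
      have h10 : Nat.Coprime q ((r ^ 2 + s ^ 2) ^ 2) := Nat.Coprime.pow_right 2 h9
      have h11 := Nat.isCoprime_iff_coprime.2 h10
      push_cast at h11
      exact h11
    have h8 : (q : ℤ) ∣ (j : ℤ) - j' := hcop.dvd_of_dvd_mul_left h7
    have h9 := Int.eq_zero_of_abs_lt_dvd h8 (by
      rw [abs_lt]
      constructor <;> omega)
    omega

theorem pass_lin {v k lam : ℕ} {B : Fin v → Finset (Fin v)} {H : Subgroup (Equiv.Perm (Fin v))}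
    (hT : TransDesign v k lam B H) (hodd : Odd v) {r s b c : ℕ} (hr : 1 ≤ r) (hs : 1 ≤ s)
    (hb : 1 ≤ b) (hc : 1 ≤ c) (hkb : k = r ^ 2 * b) (hvb : v = 1 + b * (r ^ 2 + s ^ 2))
    (hlc : lam = r ^ 2 * c) (hbc : r ^ 2 * b = 1 + c * (r ^ 2 + s ^ 2)) :
    PassX (fr r s) (cr r s) (b - c) := by
  intro p q hp hq hqc hqf hqf2 hch
  obtain ⟨hpp, hpc, hpn, hpn2⟩ := hp
  obtain ⟨hq2, hqr, hqs, hqd⟩ := dvd_cr hqc
  obtain ⟨hp2, hpr, hps, hpd⟩ := dvd_cr hpc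
  have hr2 : 1 ≤ r ^ 2 := Nat.one_le_pow _ _ hr
  have hs2 : 1 ≤ s ^ 2 := Nat.one_le_pow _ _ hs
  have hcb : c ≤ b := by
    by_contra h
    push Not at h
    nlinarith
  have hv2 : 2 ≤ v := by
    rw [hvb]
    nlinarith
  have hl1 : 1 ≤ lam := by
    rw [hlc]
    nlinarith
  have hkey : fr r s (b - c) = (s : ℤ) ^ 2 * (v : ℤ) := by
    unfold fr
    rw [Nat.cast_sub hcb, hvb]
    have h1 : (r : ℤ) ^ 2 * b = 1 + c * (r ^ 2 + s ^ 2) := by exact_mod_cast hbc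
    push_cast
    linear_combination (((r : ℤ) ^ 2 + (s : ℤ) ^ 2)) * h1
  rw [hkey] at hqf hqf2
  have hkn : k - lam = r ^ 2 * (b - c) := by
    rw [hkb, hlc, Nat.mul_sub]
  have hqs' : IsCoprime (q : ℤ) ((s : ℤ) ^ 2) := by
    have h9 : Nat.Coprime q s := (Nat.Prime.coprime_iff_not_dvd hq).2 hqs
    have h11 := Nat.isCoprime_iff_coprime.2 (Nat.Coprime.pow_right 2 h9)
    push_cast at h11
    exact h11
  have hqv : q ∣ v := by
    have := hqs'.dvd_of_dvd_mul_left hqf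
    exact_mod_cast this
  have hqv2 : ¬ q ^ 2 ∣ v := by
    intro h
    apply hqf2
    have h2 : (q : ℤ) ^ 2 ∣ (v : ℤ) := by exact_mod_cast h
    exact Dvd.dvd.mul_left h2 _
  have hpcop : Nat.Coprime p (r ^ 2) := Nat.Coprime.pow_right 2
    ((Nat.Prime.coprime_iff_not_dvd hpp).2 hpr)
  refine test_trans hT hv2 hl1 hodd hpp hq hq2 hqv hqv2 ?_ ?_ hch
  · rw [hkn]
    exact Dvd.dvd.mul_left hpn _
  · rw [hkn]
    intro h
    apply hpn2
    exact (Nat.Coprime.pow_left 2 hpcop).dvd_of_dvd_mul_left h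

end Pool.Agent.H634R3.AA
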