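import Mathlib
import Pool.Agent.H634R3.AA.Lin

set_option autoImplicit false

/-!
# Sets of density zero; designs of a fixed type
-/

namespace Pool.Agent.H634R3.AA

open Finset Pool.Agent.H634R3.PPC Pool.Agent.H951R4.OD MulAction Pool.Agent.H634R3.WG
  Pool.Agent.H634R3.WG.Lam Filter Topology

/-- density zero -/
def Small (S : ℕ → Prop) : Prop :=
  ∀ ε : ℝ, 0 < ε → ∃ N0 : ℕ, ∀ N : ℕ, N0 ≤ N → ({v : ℕ | v ≤ N ∧ S v}.ncard : ℝ) ≤ ε * N

theorem fin_le (N : ℕ) (S : ℕ → Prop) : {v : ℕ | v ≤ N ∧ S v}.Finite :=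
  (Set.finite_Iic N).subset fun _ h => h.1

theorem Small.mono {S T : ℕ → Prop} (hT : Small T) (h : ∀ v, S v → T v) : Small S := by
  intro ε hε
  obtain ⟨N0, h0⟩ := hT ε hε
  refine ⟨N0, fun N hN => le_trans ?_ (h0 N hN)⟩
  have h1 : {v : ℕ | v ≤ N ∧ S v} ⊆ {v : ℕ | v ≤ N ∧ T v} := fun v hv => ⟨hv.1, h v hv.2⟩
  exact_mod_cast Set.ncard_le_ncard h1 (fin_le N T)

theorem Small.or {S T : ℕ → Prop} (hS : Small S) (hT : Small T) :
    Small (fun v => S v ∨ T v) := by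
  intro ε hε
  obtain ⟨N0, h0⟩ := hS (ε / 2) (by positivity)
  obtain ⟨N1, h1⟩ := hT (ε / 2) (by positivity)
  refine ⟨max N0 N1, fun N hN => ?_⟩
  have h2 := h0 N (le_trans (le_max_left _ _) hN)
  have h3 := h1 N (le_trans (le_max_right _ _) hN)
  have h4 : {v : ℕ | v ≤ N ∧ (S v ∨ T v)} = {v : ℕ | v ≤ N ∧ S v} ∪ {v : ℕ | v ≤ N ∧ T v} := by
    ext v
    simp only [Set.mem_ofPred_eq, Set.mem_union]
    tauto
  have h5 : ({v : ℕ | v ≤ N ∧ (S v ∨ T v)}.ncard : ℝ) ≤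
      ({v : ℕ | v ≤ N ∧ S v}.ncard : ℝ) + ({v : ℕ | v ≤ N ∧ T v}.ncard : ℝ) := by
    rw [h4]
    exact_mod_cast Set.ncard_union_le _ _
  linarith

theorem small_false : Small (fun _ => False) := by
  intro ε hε
  refine ⟨0, fun N _ => ?_⟩
  simp
  positivity

theorem small_finset {ι : Type} (F : Finset ι) (S : ι → ℕ → Prop) (h : ∀ i ∈ F, Small (S i)) :
    Small (fun v => ∃ i ∈ F, S i v) := by
  classical
  induction F using Finset.induction_on with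
  | empty =>
    refine small_false.mono ?_
    rintro v ⟨i, hi, -⟩
    exact absurd hi (Finset.notMem_empty i)
  | insert a F ha ih =>
    refine ((h a (Finset.mem_insert_self _ _)).or
      (ih fun i hi => h i (Finset.mem_insert_of_mem hi))).mono ?_
    rintro v ⟨i, hi, hv⟩
    rcases Finset.mem_insert.1 hi with rfl | hi
    · exact Or.inl hv
    · exact Or.inr ⟨i, hi, hv⟩

/-- `v` points, type `(r, s)` -/
def Fix (r s v : ℕ) : Prop :=
  Odd v ∧ ∃ (k lam : ℕ) (B : Fin v → Finset (Fin v)) (H : Subgroup (Equiv.Perm (Fin v)))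
    (b c : ℕ), TransDesign v k lam B H ∧ 1 ≤ b ∧ 1 ≤ c ∧ k = r ^ 2 * b ∧
      v = 1 + b * (r ^ 2 + s ^ 2) ∧ lam = r ^ 2 * c ∧ r ^ 2 * b = 1 + c * (r ^ 2 + s ^ 2)

theorem small_fix (hX : TaskMainX) {r s : ℕ} (hr : 1 ≤ r) (hs : 1 ≤ s) : Small (Fix r s) := by
  intro ε hε
  obtain ⟨C, hC, hM⟩ := hX _ _ _ _ (polX_lin hr hs) (1 / 2) (by norm_num)
  have hlim : Tendsto (fun N : ℕ => C * (Real.log N) ^ ((1 / 2 : ℝ) - 1)) atTop (𝓝 0) := by
    have h1 : Tendsto (fun N : ℕ => (Real.log N) ^ (-(1 / 2 : ℝ))) atTop (𝓝 0) :=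
      (tendsto_rpow_neg_atTop (by norm_num : (0 : ℝ) < 1 / 2)).comp
        (Real.tendsto_log_atTop.comp tendsto_natCast_atTop_atTop)
    have h2 := h1.const_mul C
    rw [mul_zero] at h2
    refine h2.congr fun N => ?_
    norm_num
  obtain ⟨N0, hN0⟩ := ((hlim.eventually (gt_mem_nhds hε)).and (eventually_ge_atTop 3)).exists_forall_of_atTop
  refine ⟨N0, fun N hN => ?_⟩
  obtain ⟨h1, h3⟩ := hN0 N hN
  have h4 := hM N h3
  have hfin : {n : ℕ | 1 ≤ n ∧ n ≤ N ∧ PassX (fr r s) (cr r s) n}.Finite :=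
    (Set.finite_Iic N).subset fun n hn => hn.2.1
  have hr2 : 1 ≤ r ^ 2 := Nat.one_le_pow _ _ hr
  have hs2 : 1 ≤ s ^ 2 := Nat.one_le_pow _ _ hs
  have hsub : {v : ℕ | v ≤ N ∧ Fix r s v} ⊆ (fun n : ℕ => (fr r s n / (s : ℤ) ^ 2).toNat) ''
      {n : ℕ | 1 ≤ n ∧ n ≤ N ∧ PassX (fr r s) (cr r s) n} := by
    rintro v ⟨hvN, hodd, k, lam, B, H, b, c, hT, hb, hc, hkb, hvb, hlc, hbc⟩
    have hcb : c < b := by
      by_contra h
      push Not at h
      nlinarith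
    refine ⟨b - c, ⟨by omega, ?_, pass_lin hT hodd hr hs hb hc hkb hvb hlc hbc⟩, ?_⟩
    · have : b ≤ v := by
        rw [hvb]
        nlinarith
      omega
    · have hkey : fr r s (b - c) = (v : ℤ) * (s : ℤ) ^ 2 := by
        unfold fr
        rw [Nat.cast_sub hcb.le, hvb]
        have h1 : (r : ℤ) ^ 2 * b = 1 + c * (r ^ 2 + s ^ 2) := by exact_mod_cast hbc
        push_cast
        linear_combination (((r : ℤ) ^ 2 + (s : ℤ) ^ 2)) * h1
      show (fr r s (b - c) / (s : ℤ) ^ 2).toNat = v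
      rw [hkey, Int.mul_ediv_cancel _ (by positivity)]
      simp
  have h5 : ({v : ℕ | v ≤ N ∧ Fix r s v}.ncard : ℝ) ≤
      ({n : ℕ | 1 ≤ n ∧ n ≤ N ∧ PassX (fr r s) (cr r s) n}.ncard : ℝ) := by
    exact_mod_cast (Set.ncard_le_ncard hsub (hfin.image _)).trans (Set.ncard_image_le hfin)
  have hN0' : (0 : ℝ) ≤ N := Nat.cast_nonneg N
  calc ({v : ℕ | v ≤ N ∧ Fix r s v}.ncard : ℝ) ≤ _ := h5
    _ ≤ _ := h4
    _ = (C * (Real.log N) ^ ((1 / 2 : ℝ) - 1)) * N := by ring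
    _ ≤ ε * N := mul_le_mul_of_nonneg_right h1.le hN0'

end Pool.Agent.H634R3.AA
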