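import Mathlib

set_option autoImplicit false

namespace Pool.Agent.H634R3.AA.TailBig

open Finset

theorem card_B (r d M : ℕ) (hd : 0 < d) (S : Finset ℕ)
    (hS : ∀ b ∈ S, b ≤ M ∧ ∃ c, r ^ 2 * b = 1 + c * d) : S.card ≤ M / d + 1 := by
  have h : S.card ≤ (range (M / d + 1)).card := by
    refine Finset.card_le_card_of_injOn (fun b => b / d) ?_ ?_
    · intro b hb
      have h1 := (hS b hb).1
      rw [mem_coe, mem_range]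
      exact Nat.lt_succ_of_le (Nat.div_le_div_right h1)
    · intro b hb b' hb' hbb
      obtain ⟨c, hc⟩ := (hS b hb).2
      obtain ⟨c', hc'⟩ := (hS b' hb').2
      have hcop : Nat.Coprime d (r ^ 2) := by
        rw [Nat.coprime_iff_gcd_eq_one]
        have h1 : Nat.gcd d (r ^ 2) ∣ 1 + c * d := by
          rw [← hc]
          exact dvd_mul_of_dvd_left (Nat.gcd_dvd_right _ _) _
        have h2 : Nat.gcd d (r ^ 2) ∣ c * d := dvd_mul_of_dvd_right (Nat.gcd_dvd_left _ _) _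
        have h3 : Nat.gcd d (r ^ 2) ∣ 1 := (Nat.dvd_add_left h2).1 h1
        exact Nat.dvd_one.1 h3
      have h1 : r ^ 2 * b ≡ r ^ 2 * b' [MOD d] := by
        rw [hc, hc']
        unfold Nat.ModEq
        simp
      have h2 : b ≡ b' [MOD d] := Nat.ModEq.cancel_left_of_coprime hcop h1
      have h3 : b % d = b' % d := h2
      have h4 : b / d = b' / d := hbb
      rw [← Nat.div_add_mod b d, ← Nat.div_add_mod b' d, h3, h4]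
  simpa using h

theorem tailBig (ε : ℝ) (hε : 0 < ε) : ∃ D N0 : ℕ, ∀ N : ℕ, N0 ≤ N →
    ({v : ℕ | v ≤ N ∧ ∃ r s b c : ℕ, 1 ≤ r ∧ 1 ≤ s ∧ 1 ≤ b ∧ v = 1 + b * (r ^ 2 + s ^ 2) ∧
      r ^ 2 * b = 1 + c * (r ^ 2 + s ^ 2) ∧ D < r ^ 2 + s ^ 2 ∧ r ^ 2 + s ^ 2 ≤ b}.ncard : ℝ) ≤
      ε * N := by
  classical
  have hs : Summable (fun p : ℕ × ℕ => (1 / (p.1 : ℝ) ^ 2) * (1 / (p.2 : ℝ) ^ 2)) :=
    (Real.summable_one_div_nat_pow.2 one_lt_two).mul_of_nonneg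
      (Real.summable_one_div_nat_pow.2 one_lt_two) (fun _ => by positivity)
      (fun _ => by positivity)
  obtain ⟨F0, hF0⟩ := summable_iff_vanishing_norm.1 hs (ε / 2) (by positivity)
  refine ⟨∑ p ∈ F0, (p.1 ^ 2 + p.2 ^ 2), 0, fun N _ => ?_⟩
  set D := ∑ p ∈ F0, (p.1 ^ 2 + p.2 ^ 2) with hD
  set P := ((Icc 1 N) ×ˢ (Icc 1 N)).filter
    (fun p => D < p.1 ^ 2 + p.2 ^ 2 ∧ (p.1 ^ 2 + p.2 ^ 2) ^ 2 ≤ N) with hP
  set B : ℕ × ℕ → Finset ℕ := fun p => (range (N / (p.1 ^ 2 + p.2 ^ 2) + 1)).filter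
    (fun b => ∃ c, p.1 ^ 2 * b = 1 + c * (p.1 ^ 2 + p.2 ^ 2)) with hB
  set S := P.biUnion (fun p => (B p).image (fun b => 1 + b * (p.1 ^ 2 + p.2 ^ 2))) with hS
  have hsub : {v : ℕ | v ≤ N ∧ ∃ r s b c : ℕ, 1 ≤ r ∧ 1 ≤ s ∧ 1 ≤ b ∧
      v = 1 + b * (r ^ 2 + s ^ 2) ∧
      r ^ 2 * b = 1 + c * (r ^ 2 + s ^ 2) ∧ D < r ^ 2 + s ^ 2 ∧ r ^ 2 + s ^ 2 ≤ b} ⊆
      (S : Set ℕ) := by
    rintro v ⟨hv, r, s, b, c, hr, hs', hb, rfl, hc, hD', hdb⟩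
    rw [mem_coe, mem_biUnion]
    have hbd : b * (r ^ 2 + s ^ 2) ≤ N := by omega
    have hd2 : (r ^ 2 + s ^ 2) ^ 2 ≤ N := by
      calc (r ^ 2 + s ^ 2) ^ 2 = (r ^ 2 + s ^ 2) * (r ^ 2 + s ^ 2) := by ring
        _ ≤ b * (r ^ 2 + s ^ 2) := Nat.mul_le_mul_right _ hdb
        _ ≤ N := hbd
    have hdN : r ^ 2 + s ^ 2 ≤ N := by nlinarith [Nat.zero_le (r ^ 2 + s ^ 2)]
    have hrN : r ≤ N := by nlinarith
    have hsN : s ≤ N := by nlinarith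
    refine ⟨(r, s), ?_, ?_⟩
    · rw [hP, mem_filter, mem_product, mem_Icc, mem_Icc]
      exact ⟨⟨⟨hr, hrN⟩, ⟨hs', hsN⟩⟩, hD', hd2⟩
    · rw [mem_image]
      refine ⟨b, ?_, rfl⟩
      rw [hB, mem_filter, mem_range]
      refine ⟨Nat.lt_succ_of_le ?_, c, hc⟩
      rw [Nat.le_div_iff_mul_le (by positivity)]
      exact hbd
  have h1 : ({v : ℕ | v ≤ N ∧ ∃ r s b c : ℕ, 1 ≤ r ∧ 1 ≤ s ∧ 1 ≤ b ∧
      v = 1 + b * (r ^ 2 + s ^ 2) ∧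
      r ^ 2 * b = 1 + c * (r ^ 2 + s ^ 2) ∧ D < r ^ 2 + s ^ 2 ∧ r ^ 2 + s ^ 2 ≤ b}).ncard ≤
      S.card := by
    rw [← Set.ncard_coe_finset S]
    exact Set.ncard_le_ncard hsub S.finite_toSet
  have h2 : S.card ≤ ∑ p ∈ P, (B p).card :=
    card_biUnion_le.trans (sum_le_sum fun p _ => card_image_le)
  have h3 : ∀ p ∈ P, ((B p).card : ℝ) ≤
      2 * N * ((1 / (p.1 : ℝ) ^ 2) * (1 / (p.2 : ℝ) ^ 2)) := by
    intro p hp
    rw [hP, mem_filter, mem_product, mem_Icc, mem_Icc] at hp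
    obtain ⟨⟨⟨hr, -⟩, ⟨hs', -⟩⟩, -, hd2⟩ := hp
    have hd : 0 < p.1 ^ 2 + p.2 ^ 2 := by positivity
    have c1 : (B p).card ≤ N / (p.1 ^ 2 + p.2 ^ 2) / (p.1 ^ 2 + p.2 ^ 2) + 1 := by
      refine card_B p.1 _ _ hd _ fun b hb => ?_
      rw [hB, mem_filter, mem_range] at hb
      exact ⟨Nat.lt_succ_iff.1 hb.1, hb.2⟩
    rw [Nat.div_div_eq_div_mul] at c1
    have hr0 : (0 : ℝ) < p.1 := by exact_mod_cast hr
    have hs0 : (0 : ℝ) < p.2 := by exact_mod_cast hs'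
    set x : ℝ := ((p.1 : ℝ) ^ 2 + (p.2 : ℝ) ^ 2) ^ 2 with hx
    have hx0 : 0 < x := by positivity
    have c2 : ((N / ((p.1 ^ 2 + p.2 ^ 2) * (p.1 ^ 2 + p.2 ^ 2)) : ℕ) : ℝ) ≤ N / x := by
      refine (Nat.cast_div_le).trans (le_of_eq ?_)
      rw [hx]; push_cast; ring
    have c3 : (1 : ℝ) ≤ N / x := by
      rw [le_div_iff₀ hx0, one_mul, hx]
      exact_mod_cast hd2
    have c4 : ((B p).card : ℝ) ≤ 2 * (N / x) := by
      have : ((B p).card : ℝ) ≤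
          ((N / ((p.1 ^ 2 + p.2 ^ 2) * (p.1 ^ 2 + p.2 ^ 2)) : ℕ) : ℝ) + 1 := by
        exact_mod_cast c1
      linarith
    have c5 : 1 / x ≤ (1 / (p.1 : ℝ) ^ 2) * (1 / (p.2 : ℝ) ^ 2) := by
      rw [div_mul_div_comm, one_mul]
      refine one_div_le_one_div_of_le (by positivity) ?_
      rw [hx]
      nlinarith [sq_nonneg ((p.1 : ℝ)), sq_nonneg ((p.2 : ℝ)), mul_nonneg (sq_nonneg ((p.1 : ℝ))) (sq_nonneg ((p.2 : ℝ))), sq_nonneg ((p.1 : ℝ) ^ 2), sq_nonneg ((p.2 : ℝ) ^ 2)]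
    calc ((B p).card : ℝ) ≤ 2 * (N / x) := c4
      _ = 2 * N * (1 / x) := by ring
      _ ≤ _ := by
        refine mul_le_mul_of_nonneg_left c5 (by positivity)
  have h4 : Disjoint P F0 := by
    rw [Finset.disjoint_left]
    intro p hp hp'
    rw [hP, mem_filter] at hp
    have h5 : p.1 ^ 2 + p.2 ^ 2 ≤ D :=
      Finset.single_le_sum (f := fun p : ℕ × ℕ => p.1 ^ 2 + p.2 ^ 2)
        (fun _ _ => Nat.zero_le _) hp'
    exact absurd hp.2.1 (not_lt.2 h5)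
  have h5 := hF0 P h4
  have h6 : ∑ p ∈ P, (1 / (p.1 : ℝ) ^ 2) * (1 / (p.2 : ℝ) ^ 2) ≤ ε / 2 :=
    (le_abs_self _).trans h5.le
  calc _ ≤ (S.card : ℝ) := by exact_mod_cast h1
    _ ≤ ∑ p ∈ P, ((B p).card : ℝ) := by exact_mod_cast h2
    _ ≤ ∑ p ∈ P, 2 * N * ((1 / (p.1 : ℝ) ^ 2) * (1 / (p.2 : ℝ) ^ 2)) := sum_le_sum h3
    _ = 2 * N * ∑ p ∈ P, (1 / (p.1 : ℝ) ^ 2) * (1 / (p.2 : ℝ) ^ 2) := by rw [mul_sum]
    _ ≤ 2 * N * (ε / 2) := mul_le_mul_of_nonneg_left h6 (by positivity)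
    _ = ε * N := by ring

end Pool.Agent.H634R3.AA.TailBig
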