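import Mathlib
import Pool.Agent.H634R3.AA.Small
import Pool.Agent.H634R3.AA.Comp
import Pool.Agent.H634R3.AA.Param
import Pool.Agent.H634R3.AA.TailBig
import Pool.Agent.H177R2.SD.Main

set_option autoImplicit false

/-!
# Almost all numbers of points: assembly
-/

namespace Pool.Agent.H634R3.AA

open Finset Pool.Agent.H634R3.PPC Pool.Agent.H951R4.OD MulAction Pool.Agent.H634R3.WG
  Pool.Agent.H634R3.WG.Lam Filter Topology

/-- `v` points carry a nontrivial symmetric design with a solvable point-transitive group -/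
def HasTD (v : ℕ) : Prop :=
  ∃ (k lam : ℕ) (B : Fin v → Finset (Fin v)) (H : Subgroup (Equiv.Perm (Fin v))),
    2 ≤ k ∧ k + 2 ≤ v ∧ TransDesign v k lam B H

/-- the same with `v` odd and `k (v - 1 - k)` a square -/
def HasSq (v : ℕ) : Prop :=
  Odd v ∧ ∃ (k lam : ℕ) (B : Fin v → Finset (Fin v)) (H : Subgroup (Equiv.Perm (Fin v))),
    2 ≤ k ∧ k + 2 ≤ v ∧ TransDesign v k lam B H ∧ IsSquare (k * (v - 1 - k))

theorem lam_pos {v k lam : ℕ} {B : Fin v → Finset (Fin v)} (hk2 : 2 ≤ k) (hkv : k + 2 ≤ v)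
    (hk : ∀ i, (B i).card = k)
    (hp : ∀ x y : Fin v, x ≠ y →
      (Finset.univ.filter (fun i => x ∈ B i ∧ y ∈ B i)).card = lam) : 1 ≤ lam := by
  have h1 : 1 < (B ⟨0, by omega⟩).card := by
    rw [hk]
    omega
  obtain ⟨x, hx, y, hy, hxy⟩ := Finset.one_lt_card.1 h1
  rw [← hp x y hxy]
  exact Finset.card_pos.2 ⟨⟨0, by omega⟩, by simp [hx, hy]⟩

/-- the bound for `b < r ^ 2 + s ^ 2` -/
def TS : Prop := ∀ ε : ℝ, 0 < ε → ∃ N0 : ℕ, ∀ N : ℕ, N0 ≤ N →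
  ({v : ℕ | v ≤ N ∧ ∃ r s b c : ℕ, 1 ≤ r ∧ 1 ≤ s ∧ 1 ≤ b ∧ 1 ≤ c ∧ v = 1 + b * (r ^ 2 + s ^ 2) ∧
    r ^ 2 * b = 1 + c * (r ^ 2 + s ^ 2) ∧ b < r ^ 2 + s ^ 2}.ncard : ℝ) ≤ ε * N

theorem small_sq (hX : TaskMainX) (hTS : TS) : Small HasSq := by
  intro ε hε
  obtain ⟨D, N0, h0⟩ := TailBig.tailBig (ε / 3) (by positivity)
  obtain ⟨N1, h1⟩ := hTS (ε / 3) (by positivity)
  have hF : Small (fun v => ∃ i ∈ Finset.Icc 1 D ×ˢ Finset.Icc 1 D, Fix i.1 i.2 v) :=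
    small_finset _ _ fun i hi => by
      rw [Finset.mem_product, Finset.mem_Icc, Finset.mem_Icc] at hi
      exact small_fix hX hi.1.1 hi.2.1
  obtain ⟨N2, h2⟩ := hF (ε / 3) (by positivity)
  refine ⟨max N0 (max N1 N2), fun N hN => ?_⟩
  have e0 := h0 N (le_trans (le_max_left _ _) hN)
  have e1 := h1 N (le_trans (le_trans (le_max_left _ _) (le_max_right _ _)) hN)
  have e2 := h2 N (le_trans (le_trans (le_max_right _ _) (le_max_right _ _)) hN)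
  have hsub : {v : ℕ | v ≤ N ∧ HasSq v} ⊆
      ({v : ℕ | v ≤ N ∧ ∃ r s b c : ℕ, 1 ≤ r ∧ 1 ≤ s ∧ 1 ≤ b ∧ v = 1 + b * (r ^ 2 + s ^ 2) ∧
        r ^ 2 * b = 1 + c * (r ^ 2 + s ^ 2) ∧ D < r ^ 2 + s ^ 2 ∧ r ^ 2 + s ^ 2 ≤ b} ∪
      {v : ℕ | v ≤ N ∧ ∃ r s b c : ℕ, 1 ≤ r ∧ 1 ≤ s ∧ 1 ≤ b ∧ 1 ≤ c ∧
        v = 1 + b * (r ^ 2 + s ^ 2) ∧
        r ^ 2 * b = 1 + c * (r ^ 2 + s ^ 2) ∧ b < r ^ 2 + s ^ 2}) ∪
      {v : ℕ | v ≤ N ∧ ∃ i ∈ Finset.Icc 1 D ×ˢ Finset.Icc 1 D, Fix i.1 i.2 v} := by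
    rintro v ⟨hvN, hodd, k, lam, B, H, hk2, hkv, hT, hsq⟩
    have hlam := lam_pos hk2 hkv hT.size hT.pair
    obtain ⟨-, hcount⟩ := repl v k lam (by omega) hlam B hT.size hT.pair
    have h3 : lam * (v - 1) = k * (k - 1) := by
      have h6 : k * (k - 1) + k = k * k := by
        obtain ⟨m, hm⟩ : ∃ m, k = m + 1 := ⟨k - 1, by omega⟩
        rw [hm, Nat.add_sub_cancel]
        ring
      linarith
    obtain ⟨r, s, b, c, hr, hs, hb, hc, hkb, hvb, hlc, hbc⟩ :=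
      Param.param v k lam hk2 hkv h3 hsq
    by_cases hD : r ^ 2 + s ^ 2 ≤ D
    · right
      refine ⟨hvN, (r, s), ?_, hodd, k, lam, B, H, b, c, hT, hb, hc, hkb, hvb, hlc, hbc⟩
      rw [Finset.mem_product, Finset.mem_Icc, Finset.mem_Icc]
      have hr2 : r ≤ r ^ 2 := Nat.le_self_pow (by norm_num) r
      have hs2 : s ≤ s ^ 2 := Nat.le_self_pow (by norm_num) s
      exact ⟨⟨hr, by show r ≤ D; omega⟩, ⟨hs, by show s ≤ D; omega⟩⟩
    · left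
      push Not at hD
      rcases le_or_gt (r ^ 2 + s ^ 2) b with h | h
      · left
        exact ⟨hvN, r, s, b, c, hr, hs, hb, hvb, hbc, hD, h⟩
      · right
        exact ⟨hvN, r, s, b, c, hr, hs, hb, hc, hvb, hbc, h⟩
  have h3 := Set.ncard_le_ncard hsub (((fin_le N _).union (fin_le N _)).union (fin_le N _))
  have h4 : ({v : ℕ | v ≤ N ∧ HasSq v}.ncard : ℝ) ≤ _ :=
    (Nat.cast_le (α := ℝ)).2 (h3.trans ((Set.ncard_union_le _ _).trans
      (Nat.add_le_add_right (Set.ncard_union_le _ _) _)))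
  push_cast at h4
  linarith

theorem small_exc : Small Pool.Agent.H177R2.SD.Exc := by
  classical
  intro ε hε
  have h := Pool.Agent.H177R2.SD.main
  obtain ⟨N0, h0⟩ := ((h.eventually (gt_mem_nhds hε)).and
    (eventually_ge_atTop 1)).exists_forall_of_atTop
  refine ⟨N0, fun N hN => ?_⟩
  obtain ⟨h1, h2⟩ := h0 N hN
  have hN0 : (0 : ℝ) < N := by exact_mod_cast h2
  have h3 := (div_lt_iff₀ hN0).1 h1
  refine le_trans ?_ h3.le
  have hsub : {v : ℕ | v ≤ N ∧ Pool.Agent.H177R2.SD.Exc v} ⊆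
      ((Finset.Icc 1 N).filter Pool.Agent.H177R2.SD.Exc : Finset ℕ) := by
    rintro v ⟨hvN, hv⟩
    rw [Finset.mem_coe, Finset.mem_filter, Finset.mem_Icc]
    refine ⟨⟨?_, hvN⟩, hv⟩
    obtain ⟨k, l, hk, hkv, -⟩ := hv
    omega
  have h4 := Set.ncard_le_ncard hsub (Finset.finite_toSet _)
  rw [Set.ncard_coe_finset] at h4
  refine (Nat.cast_le (α := ℝ)).2 ?_
  convert h4

theorem exc_or {v : ℕ} (h : HasTD v) : Pool.Agent.H177R2.SD.Exc v ∨ HasSq v := by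
  classical
  obtain ⟨k, lam, B, H, hk2, hkv, hT⟩ := h
  have hlam := lam_pos hk2 hkv hT.size hT.pair
  obtain ⟨hrep, hcount⟩ := repl v k lam (by omega) hlam B hT.size hT.pair
  by_cases hE : v % 4 = 3 ∧ (IsSquare (k * (v - 1 - k)) ∨ IsSquare ((k - 1) * (v - k)))
  · right
    obtain ⟨h3, h4⟩ := hE
    refine ⟨Nat.odd_iff.2 (by omega), ?_⟩
    rcases h4 with h4 | h4
    · exact ⟨k, lam, B, H, hk2, hkv, hT, h4⟩
    · obtain ⟨c1, c2, c3⟩ := Comp.comp B (by omega) hT.kv hT.size hrep hT.pair H hT.aut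
      refine ⟨v - k, v + lam - 2 * k, fun i => (B i)ᶜ, H, by omega, by omega,
        ⟨by omega, c1, c2, hT.trans, c3, hT.solv⟩, ?_⟩
      have h5 : (v - k) * (v - 1 - (v - k)) = (k - 1) * (v - k) := by
        have h6 : v - 1 - (v - k) = k - 1 := by omega
        rw [h6, mul_comm]
      rw [h5]
      exact h4
  · left
    refine ⟨k, lam, hk2, hkv, ⟨hT.kv, k, B, hT.size, ?_, ?_⟩, hE⟩
    · intro x
      convert hrep x
    · intro x y hxy
      convert hT.pair x y hxy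

theorem small_td (hX : TaskMainX) (hTS : TS) : Small HasTD :=
  (small_exc.or (small_sq hX hTS)).mono fun _ h => exc_or h

end Pool.Agent.H634R3.AA
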