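import Mathlib

namespace Pool.Agent.H634R3.AA.Pell

lemma pell_two {A C r1 s1 r2 s2 : ℤ} (hA : 1 ≤ A) (hC : 1 ≤ C) (h1 : 1 ≤ r1) (hs1 : 1 ≤ s1)
    (h2 : 1 ≤ r2) (hs2 : 1 ≤ s2) (e1 : A * r1 ^ 2 = 1 + C * s1 ^ 2)
    (e2 : A * r2 ^ 2 = 1 + C * s2 ^ 2) (hlt : r1 < r2) : 2 * r1 ≤ r2 := by
  have hz : r2 * s1 < r1 * s2 := by
    have h : C * (r1 * s2) ^ 2 - C * (r2 * s1) ^ 2 = r2 ^ 2 - r1 ^ 2 := by
      linear_combination r2 ^ 2 * e1 - r1 ^ 2 * e2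
    have h' : (r2 * s1) ^ 2 < (r1 * s2) ^ 2 := by
      by_contra hcon
      push Not at hcon
      have h3 : r1 ^ 2 < r2 ^ 2 := by nlinarith
      have h4 : C * (r1 * s2) ^ 2 ≤ C * (r2 * s1) ^ 2 := by nlinarith
      linarith
    exact lt_of_pow_lt_pow_left₀ 2 (by positivity) h'
  have hx : C * (s1 * s2) < A * (r1 * r2) := by
    have h : (A * (r1 * r2)) ^ 2 = (1 + C * s1 ^ 2) * (1 + C * s2 ^ 2) := by
      rw [← e1, ← e2]; ring
    have h' : (C * (s1 * s2)) ^ 2 < (A * (r1 * r2)) ^ 2 := by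
      rw [h]
      have a1 : 0 ≤ C * s1 ^ 2 := by positivity
      have a2 : 0 ≤ C * s2 ^ 2 := by positivity
      nlinarith
    exact lt_of_pow_lt_pow_left₀ 2 (by positivity) h'
  have hr : r2 = (A * (r1 * r2) - C * (s1 * s2)) * r1 + C * s1 * (r1 * s2 - r2 * s1) := by
    linear_combination (-r2) * e1
  have hxx : (A * (r1 * r2) - C * (s1 * s2)) ^ 2 = 1 + A * C * (r1 * s2 - r2 * s1) ^ 2 := by
    linear_combination (A * r2 ^ 2 - C * s2 ^ 2) * e1 + e2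
  have hx2 : 2 ≤ A * (r1 * r2) - C * (s1 * s2) := by
    by_contra hcon
    push Not at hcon
    have hx1 : A * (r1 * r2) - C * (s1 * s2) = 1 := by omega
    rw [hx1] at hxx
    have : 0 < A * C * (r1 * s2 - r2 * s1) ^ 2 := by
      have : 0 < r1 * s2 - r2 * s1 := by linarith
      positivity
    linarith
  have hz' : 0 < r1 * s2 - r2 * s1 := by linarith
  have h5 : 0 < C * s1 * (r1 * s2 - r2 * s1) := by positivity
  nlinarith

theorem pell (A C R : ℕ) (hA : 1 ≤ A) (hC : 1 ≤ C) :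
    ({p : ℕ × ℕ | 1 ≤ p.1 ∧ 1 ≤ p.2 ∧ p.1 ≤ R ∧ A * p.1 ^ 2 = 1 + C * p.2 ^ 2}.ncard) ≤
      2 * (Nat.log 2 (R + 1)) + 2 := by
  have key : ∀ p q : ℕ × ℕ, (1 ≤ p.1 ∧ 1 ≤ p.2 ∧ p.1 ≤ R ∧ A * p.1 ^ 2 = 1 + C * p.2 ^ 2) →
      (1 ≤ q.1 ∧ 1 ≤ q.2 ∧ q.1 ≤ R ∧ A * q.1 ^ 2 = 1 + C * q.2 ^ 2) → p.1 < q.1 →
      Nat.log 2 p.1 < Nat.log 2 q.1 := by
    intro p q hp hq hlt
    have h2 : 2 * p.1 ≤ q.1 := by
      have := pell_two (A := (A : ℤ)) (C := (C : ℤ)) (r1 := (p.1 : ℤ)) (s1 := (p.2 : ℤ))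
        (r2 := (q.1 : ℤ)) (s2 := (q.2 : ℤ)) (by exact_mod_cast hA) (by exact_mod_cast hC)
        (by exact_mod_cast hp.1) (by exact_mod_cast hp.2.1) (by exact_mod_cast hq.1)
        (by exact_mod_cast hq.2.1) (by exact_mod_cast hp.2.2.2) (by exact_mod_cast hq.2.2.2)
        (by exact_mod_cast hlt)
      exact_mod_cast this
    have h3 : Nat.log 2 (2 * p.1) = Nat.log 2 p.1 + 1 := by
      rw [mul_comm, Nat.log_mul_base (by norm_num) (by omega)]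
    have h4 : Nat.log 2 (2 * p.1) ≤ Nat.log 2 q.1 := Nat.log_mono_right h2
    omega
  have hle : ({p : ℕ × ℕ | 1 ≤ p.1 ∧ 1 ≤ p.2 ∧ p.1 ≤ R ∧ A * p.1 ^ 2 = 1 + C * p.2 ^ 2}.ncard) ≤
      ((Finset.range (Nat.log 2 R + 1) : Finset ℕ) : Set ℕ).ncard := by
    refine Set.ncard_le_ncard_of_injOn (fun p => Nat.log 2 p.1) ?_ ?_ (Set.toFinite _)
    · intro p hp
      simp only [Finset.coe_range, Set.mem_Iio]
      have := Nat.log_mono_right (b := 2) hp.2.2.1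
      omega
    · intro p hp q hq h
      rcases lt_trichotomy p.1 q.1 with hlt | heq | hgt
      · exact absurd h (key p q hp hq hlt).ne
      · have h1 := hp.2.2.2
        have h2 := hq.2.2.2
        rw [heq, h2] at h1
        have h3 : C * q.2 ^ 2 = C * p.2 ^ 2 := by omega
        have h4 : q.2 ^ 2 = p.2 ^ 2 := Nat.eq_of_mul_eq_mul_left (by omega) h3
        have h5 : q.2 = p.2 := by
          exact Nat.pow_left_injective (n := 2) (by norm_num) h4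
        exact Prod.ext heq h5.symm
      · exact absurd h (key q p hq hp hgt).ne'
  rw [Set.ncard_coe_finset, Finset.card_range] at hle
  have := Nat.log_mono_right (b := 2) (Nat.le_succ R)
  simp only [Nat.succ_eq_add_one] at this
  omega

end Pool.Agent.H634R3.AA.Pell
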