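import Mathlib

set_option autoImplicit false

namespace Pool.Agent.H634R3.AA.TailSmall

open Filter Topology

theorem ncard_biUnion_le {ι α : Type} (t : Finset ι) (f : ι → Set α) (M : ℕ)
    (h : ∀ i ∈ t, (f i).ncard ≤ M) : (⋃ i ∈ t, f i).ncard ≤ t.card * M := by
  classical
  induction t using Finset.induction_on with
  | empty => simp
  | insert a t ha ih =>
    rw [Finset.set_biUnion_insert, Finset.card_insert_of_notMem ha]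
    have h1 := Set.ncard_union_le (f a) (⋃ i ∈ t, f i)
    have h2 := ih (fun i hi => h i (Finset.mem_insert_of_mem hi))
    have h3 := h a (Finset.mem_insert_self _ _)
    nlinarith

theorem P_finite (A C R : ℕ) (hC : 1 ≤ C) :
    {p : ℕ × ℕ | 1 ≤ p.1 ∧ 1 ≤ p.2 ∧ p.1 ≤ R ∧ A * p.1 ^ 2 = 1 + C * p.2 ^ 2}.Finite := by
  refine ((Set.finite_Iic R).prod (Set.finite_Iic (A * R ^ 2))).subset ?_
  rintro ⟨x, y⟩ ⟨h1, h2, h3, h4⟩
  simp only at h1 h2 h3 h4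
  refine ⟨h3, ?_⟩
  show y ≤ A * R ^ 2
  have h5 : A * x ^ 2 ≤ A * R ^ 2 := Nat.mul_le_mul_left _ (Nat.pow_le_pow_left h3 2)
  have h6 : y ≤ y ^ 2 := by nlinarith
  have h7 : y ^ 2 ≤ C * y ^ 2 := Nat.le_mul_of_pos_left _ hC
  omega

/-- the predicate -/
def Q (v r s b c : ℕ) : Prop :=
  1 ≤ r ∧ 1 ≤ s ∧ 1 ≤ b ∧ 1 ≤ c ∧ v = 1 + b * (r ^ 2 + s ^ 2) ∧
    r ^ 2 * b = 1 + c * (r ^ 2 + s ^ 2) ∧ b < r ^ 2 + s ^ 2

theorem uniq {v v' r s b c b' c' : ℕ} (h : Q v r s b c) (h' : Q v' r s b' c') : v = v' := by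
  obtain ⟨h1, h2, h3, h4, h5, h6, h7⟩ := h
  obtain ⟨k1, k2, k3, k4, k5, k6, k7⟩ := h'
  have e : b = b' := by
    set d := r ^ 2 + s ^ 2 with hd
    have hcop : Nat.Coprime (r ^ 2) d := by
      rw [Nat.coprime_iff_gcd_eq_one]
      have h8 : (r ^ 2).gcd d ∣ 1 := by
        have a1 : (r ^ 2).gcd d ∣ r ^ 2 * b := (Nat.gcd_dvd_left _ _).mul_right b
        have a2 : (r ^ 2).gcd d ∣ c * d := (Nat.gcd_dvd_right _ _).mul_left c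
        rw [h6] at a1
        exact (Nat.dvd_add_left a2).1 a1
      exact Nat.dvd_one.1 h8
    have hm : r ^ 2 * b ≡ r ^ 2 * b' [MOD d] := by
      rw [h6, k6]
      have b1 : 1 + c * d ≡ 1 + 0 [MOD d] := Nat.ModEq.add_left 1 ((Nat.modEq_zero_iff_dvd).2 (Dvd.intro_left c rfl))
      have b2 : 1 + c' * d ≡ 1 + 0 [MOD d] := Nat.ModEq.add_left 1 ((Nat.modEq_zero_iff_dvd).2 (Dvd.intro_left c' rfl))
      exact b1.trans b2.symm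
    have hm2 : b ≡ b' [MOD d] := Nat.ModEq.cancel_left_of_coprime (hcop.symm) hm
    exact Nat.ModEq.eq_of_lt_of_lt hm2 h7 k7
  rw [h5, k5, e]

theorem bound (hP : ∀ A C R : ℕ, 1 ≤ A → 1 ≤ C → ({p : ℕ × ℕ | 1 ≤ p.1 ∧ 1 ≤ p.2 ∧ p.1 ≤ R ∧ A * p.1 ^ 2 = 1 + C * p.2 ^ 2}.ncard) ≤ 2 * (Nat.log 2 (R + 1)) + 2)
    (N D : ℕ) (hD : 1 ≤ D) :
    {v : ℕ | v ≤ N ∧ ∃ r s b c : ℕ, Q v r s b c}.ncard ≤
      D + (N / D) ^ 2 * (2 * (Nat.log 2 (Nat.sqrt N + 1)) + 2) := by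
  classical
  set S1 : Set ℕ := {v : ℕ | v ≤ N ∧ ∃ r s b c : ℕ, Q v r s b c ∧ r ^ 2 + s ^ 2 ≤ D} with hS1
  set S2 : Set ℕ := {v : ℕ | v ≤ N ∧ ∃ r s b c : ℕ, Q v r s b c ∧ D < r ^ 2 + s ^ 2} with hS2
  have hsub : {v : ℕ | v ≤ N ∧ ∃ r s b c : ℕ, Q v r s b c} ⊆ S1 ∪ S2 := by
    rintro v ⟨hv, r, s, b, c, hQ⟩
    rcases le_or_gt (r ^ 2 + s ^ 2) D with h | h
    · exact Or.inl ⟨hv, r, s, b, c, hQ, h⟩
    · exact Or.inr ⟨hv, r, s, b, c, hQ, h⟩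
  have f1 : S1.Finite := (Set.finite_Iic N).subset fun v hv => hv.1
  have f2 : S2.Finite := (Set.finite_Iic N).subset fun v hv => hv.1
  refine (Set.ncard_le_ncard hsub (f1.union f2)).trans ((Set.ncard_union_le _ _).trans ?_)
  have b1 : S1.ncard ≤ D := by
    have hch : ∀ v ∈ S1, ∃ p : ℕ × ℕ, ∃ b c : ℕ, Q v p.1 p.2 b c ∧ p.1 ^ 2 + p.2 ^ 2 ≤ D := by
      rintro v ⟨-, r, s, b, c, hQ, h⟩
      exact ⟨(r, s), b, c, hQ, h⟩
    choose! g hg using hch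
    have hmaps : ∀ v ∈ S1, g v ∈ ((Finset.Icc 1 (Nat.sqrt D) ×ˢ Finset.Icc 1 (Nat.sqrt D) : Finset (ℕ × ℕ)) : Set (ℕ × ℕ)) := by
      intro v hv
      obtain ⟨b, c, hQ, h⟩ := hg v hv
      have r1 := hQ.1
      have s1 := hQ.2.1
      rw [Finset.mem_coe, Finset.mem_product, Finset.mem_Icc, Finset.mem_Icc]
      refine ⟨⟨r1, Nat.le_sqrt'.2 ?_⟩, ⟨s1, Nat.le_sqrt'.2 ?_⟩⟩
      · exact (Nat.le_add_right _ _).trans h
      · exact (Nat.le_add_left _ _).trans h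
    have hinj : Set.InjOn g S1 := by
      intro v hv v' hv' he
      obtain ⟨b, c, hQ, -⟩ := hg v hv
      obtain ⟨b', c', hQ', -⟩ := hg v' hv'
      rw [he] at hQ
      exact uniq hQ hQ'
    have := Set.ncard_le_ncard_of_injOn g hmaps hinj (Finset.finite_toSet _)
    rw [Set.ncard_coe_finset, Finset.card_product, Nat.card_Icc, Nat.add_sub_cancel] at this
    exact this.trans (Nat.sqrt_le D)
  have b2 : S2.ncard ≤ (N / D) ^ 2 * (2 * (Nat.log 2 (Nat.sqrt N + 1)) + 2) := by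
    set t : Finset (ℕ × ℕ) := Finset.Icc 1 (N / D) ×ˢ Finset.Icc 1 (N / D) with ht
    have hsub2 : S2 ⊆ ⋃ i ∈ t, {v : ℕ | v ≤ N ∧ 1 ≤ i.2 ∧ i.2 < i.1 ∧ ∃ r s : ℕ, Q v r s i.1 i.2} := by
      rintro v ⟨hv, r, s, b, c, hQ, h⟩
      obtain ⟨h1, h2, h3, h4, h5, h6, h7⟩ := id hQ
      have hs2 : 1 ≤ s ^ 2 := Nat.one_le_pow _ _ h2
      have hcb : c < b := by
        by_contra hcon
        push Not at hcon
        have a1 : b * (r ^ 2 + s ^ 2) ≤ c * (r ^ 2 + s ^ 2) := Nat.mul_le_mul_right _ hcon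
        have a2 : r ^ 2 * b ≤ b * (r ^ 2 + s ^ 2) := by nlinarith
        omega
      have hbB : b ≤ N / D := by
        rw [Nat.le_div_iff_mul_le hD]
        have a1 : b * D ≤ b * (r ^ 2 + s ^ 2) := Nat.mul_le_mul_left _ h.le
        omega
      rw [Set.mem_iUnion₂]
      refine ⟨(b, c), ?_, hv, h4, hcb, r, s, hQ⟩
      rw [ht, Finset.mem_product, Finset.mem_Icc, Finset.mem_Icc]
      exact ⟨⟨h3, hbB⟩, h4, hcb.le.trans hbB⟩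
    have hfin : (⋃ i ∈ t, {v : ℕ | v ≤ N ∧ 1 ≤ i.2 ∧ i.2 < i.1 ∧ ∃ r s : ℕ, Q v r s i.1 i.2}).Finite := by
      refine (Set.finite_Iic N).subset ?_
      intro v hv
      rw [Set.mem_iUnion₂] at hv
      obtain ⟨i, -, hv⟩ := hv
      exact hv.1
    refine (Set.ncard_le_ncard hsub2 hfin).trans ?_
    have hcard : t.card = (N / D) ^ 2 := by
      rw [ht, Finset.card_product, Nat.card_Icc, Nat.add_sub_cancel, sq]
    rw [← hcard]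
    apply ncard_biUnion_le
    rintro ⟨b, c⟩ -
    simp only
    by_cases hbc : 1 ≤ c ∧ c < b
    swap
    · have : {v : ℕ | v ≤ N ∧ 1 ≤ c ∧ c < b ∧ ∃ r s : ℕ, Q v r s b c} = ∅ := by
        ext v
        simp only [Set.mem_ofPred_eq, Set.mem_empty_iff_false, iff_false]
        rintro ⟨-, a1, a2, -⟩
        exact hbc ⟨a1, a2⟩
      rw [this, Set.ncard_empty]
      exact Nat.zero_le _
    obtain ⟨hc1, hcb⟩ := hbc
    refine le_trans ?_ (hP (b - c) c (Nat.sqrt N) (by omega) hc1)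
    have hch : ∀ v ∈ {v : ℕ | v ≤ N ∧ 1 ≤ c ∧ c < b ∧ ∃ r s : ℕ, Q v r s b c},
        ∃ p : ℕ × ℕ, Q v p.1 p.2 b c := by
      rintro v ⟨-, -, -, r, s, hQ⟩
      exact ⟨(r, s), hQ⟩
    choose! g hg using hch
    refine Set.ncard_le_ncard_of_injOn g ?_ ?_ (P_finite _ _ _ hc1)
    · intro v hv
      obtain ⟨h1, h2, h3, h4, h5, h6, h7⟩ := hg v hv
      have hvN : v ≤ N := hv.1
      refine ⟨h1, h2, Nat.le_sqrt'.2 ?_, ?_⟩
      · have a1 : (g v).1 ^ 2 ≤ b * ((g v).1 ^ 2 + (g v).2 ^ 2) := by nlinarith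
        omega
      · obtain ⟨a, rfl⟩ : ∃ a, b = c + a := ⟨b - c, by omega⟩
        rw [Nat.add_sub_cancel_left]
        nlinarith
    · intro v hv v' hv' he
      have q1 := hg v hv
      have q2 := hg v' hv'
      rw [he] at q1
      exact uniq q1 q2
  exact add_le_add b1 b2

theorem tailSmall (hP : ∀ A C R : ℕ, 1 ≤ A → 1 ≤ C → ({p : ℕ × ℕ | 1 ≤ p.1 ∧ 1 ≤ p.2 ∧ p.1 ≤ R ∧ A * p.1 ^ 2 = 1 + C * p.2 ^ 2}.ncard) ≤ 2 * (Nat.log 2 (R + 1)) + 2) (ε : ℝ) (hε : 0 < ε) : ∃ N0 : ℕ, ∀ N : ℕ, N0 ≤ N → ({v : ℕ | v ≤ N ∧ ∃ r s b c : ℕ, 1 ≤ r ∧ 1 ≤ s ∧ 1 ≤ b ∧ 1 ≤ c ∧ v = 1 + b * (r ^ 2 + s ^ 2) ∧ r ^ 2 * b = 1 + c * (r ^ 2 + s ^ 2) ∧ b < r ^ 2 + s ^ 2}.ncard : ℝ) ≤ ε * N := by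
  have hlim := tendsto_pow_const_div_const_pow_of_one_lt 2 (show (1 : ℝ) < 2 by norm_num)
  have h1 : ∀ᶠ l : ℕ in atTop, (l : ℝ) ^ 2 / 2 ^ l < ε ^ 2 / 64 :=
    hlim.eventually (gt_mem_nhds (by positivity))
  have h2 : ∀ᶠ l : ℕ in atTop, 4 / ε ≤ (l : ℝ) :=
    tendsto_natCast_atTop_atTop.eventually (eventually_ge_atTop _)
  obtain ⟨L0, hL0⟩ := eventually_atTop.1 (h1.and h2)
  refine ⟨2 ^ (L0 + 1), fun N hN => ?_⟩
  have hN2 : 2 ≤ N := by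
    have : 2 ^ 1 ≤ 2 ^ (L0 + 1) := Nat.pow_le_pow_right (by norm_num) (by omega)
    omega
  have hN0 : N ≠ 0 := by omega
  set l : ℕ := Nat.log 2 N + 1 with hl
  have hlL : L0 ≤ l := by
    have : L0 + 1 ≤ Nat.log 2 N := Nat.le_log_of_pow_le (by norm_num) hN
    omega
  obtain ⟨g1, g2⟩ := hL0 l hlL
  have hpow : 2 ^ (l - 1) ≤ N := by
    rw [hl, Nat.add_sub_cancel]
    exact Nat.pow_log_le_self 2 hN0
  have hpowR : (2 : ℝ) ^ l ≤ 2 * N := by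
    have h3 : 2 ^ l ≤ 2 * N := by
      have : 2 ^ l = 2 * 2 ^ (l - 1) := by
        rw [hl, Nat.add_sub_cancel, pow_succ]
        ring
      omega
    exact_mod_cast h3
  have hl1 : 1 ≤ l := by omega
  have hl0 : (0 : ℝ) < l := by exact_mod_cast hl1
  have hNR : (0 : ℝ) < N := by exact_mod_cast (by omega : 0 < N)
  have hb := bound hP N ((Nat.sqrt N + 1) * l) (Nat.mul_pos (Nat.succ_pos _) hl1)
  have hlog : 2 * Nat.log 2 (Nat.sqrt N + 1) + 2 ≤ 2 * l := by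
    have h3 : Nat.sqrt N + 1 ≤ N := by
      have := Nat.sqrt_lt_self (n := N) (by omega)
      omega
    have h4 : Nat.log 2 (Nat.sqrt N + 1) ≤ Nat.log 2 N := Nat.log_mono_right h3
    omega
  have hset : {v : ℕ | v ≤ N ∧ ∃ r s b c : ℕ, 1 ≤ r ∧ 1 ≤ s ∧ 1 ≤ b ∧ 1 ≤ c ∧ v = 1 + b * (r ^ 2 + s ^ 2) ∧ r ^ 2 * b = 1 + c * (r ^ 2 + s ^ 2) ∧ b < r ^ 2 + s ^ 2} = {v : ℕ | v ≤ N ∧ ∃ r s b c : ℕ, Q v r s b c} := rfl
  rw [hset]
  set B := N / ((Nat.sqrt N + 1) * l) with hB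
  have hsq : Real.sqrt N < (Nat.sqrt N : ℝ) + 1 := Real.real_sqrt_lt_nat_sqrt_succ
  have hsq0 : 0 < Real.sqrt N := Real.sqrt_pos.2 hNR
  have hsqN : Real.sqrt N * Real.sqrt N = N := Real.mul_self_sqrt hNR.le
  have hsqle : (Nat.sqrt N : ℝ) ≤ Real.sqrt N := Real.nat_sqrt_le_real_sqrt
  have hBR : (B : ℝ) ≤ Real.sqrt N / l := by
    have h3 : (B : ℝ) ≤ (N : ℝ) / (((Nat.sqrt N + 1) * l : ℕ) : ℝ) := Nat.cast_div_le
    refine h3.trans ?_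
    push_cast
    rw [div_le_div_iff₀ (by positivity) hl0]
    calc (N : ℝ) * l = Real.sqrt N * (Real.sqrt N * l) := by rw [← mul_assoc, hsqN]
      _ ≤ Real.sqrt N * (((Nat.sqrt N : ℝ) + 1) * l) := by gcongr
  have hB0 : (0 : ℝ) ≤ B := Nat.cast_nonneg _
  have hBR2 : (B : ℝ) ^ 2 ≤ N / l ^ 2 := by
    calc (B : ℝ) ^ 2 ≤ (Real.sqrt N / l) ^ 2 := pow_le_pow_left₀ hB0 hBR 2
      _ = N / l ^ 2 := by rw [div_pow, sq (Real.sqrt N), hsqN]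
  have hmain : ({v : ℕ | v ≤ N ∧ ∃ r s b c : ℕ, Q v r s b c}.ncard : ℝ) ≤
      ((Nat.sqrt N : ℝ) + 1) * l + (B : ℝ) ^ 2 * (2 * l) := by
    have h3 : {v : ℕ | v ≤ N ∧ ∃ r s b c : ℕ, Q v r s b c}.ncard ≤
        (Nat.sqrt N + 1) * l + B ^ 2 * (2 * l) :=
      hb.trans (Nat.add_le_add_left (Nat.mul_le_mul_left _ hlog) _)
    exact_mod_cast h3
  refine hmain.trans ?_
  have p1 : (B : ℝ) ^ 2 * (2 * l) ≤ ε / 2 * N := by
    calc (B : ℝ) ^ 2 * (2 * (l : ℝ)) ≤ (N : ℝ) / (l : ℝ) ^ 2 * (2 * (l : ℝ)) := by gcongr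
      _ = (N : ℝ) * (2 / (l : ℝ)) := by field_simp
      _ ≤ (N : ℝ) * (ε / 2) := by
          refine mul_le_mul_of_nonneg_left ?_ hNR.le
          rw [div_le_div_iff₀ hl0 (by norm_num)]
          rw [div_le_iff₀ hε] at g2
          linarith
      _ = ε / 2 * (N : ℝ) := by ring
  have p2 : ((Nat.sqrt N : ℝ) + 1) * l ≤ ε / 2 * N := by
    have h3 : (l : ℝ) ^ 2 ≤ ε ^ 2 / 64 * (2 * N) := by
      rw [div_lt_iff₀ (by positivity)] at g1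
      have : ε ^ 2 / 64 * 2 ^ l ≤ ε ^ 2 / 64 * (2 * N) := by gcongr
      linarith
    have h4 : (l : ℝ) ≤ ε / 4 * Real.sqrt N := by
      apply le_of_sq_le_sq _ (by positivity)
      rw [mul_pow, sq (Real.sqrt N), hsqN]
      nlinarith [sq_nonneg ε, mul_nonneg (sq_nonneg ε) hNR.le]
    have h5 : (Nat.sqrt N : ℝ) + 1 ≤ 2 * Real.sqrt N := by
      have : 1 ≤ Real.sqrt N := by
        rw [Real.one_le_sqrt]
        exact_mod_cast (by omega : 1 ≤ N)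
      linarith
    calc ((Nat.sqrt N : ℝ) + 1) * l ≤ (2 * Real.sqrt N) * (ε / 4 * Real.sqrt N) := by gcongr
      _ = ε / 2 * (Real.sqrt N * Real.sqrt N) := by ring
      _ = ε / 2 * N := by rw [hsqN]
  linarith

end Pool.Agent.H634R3.AA.TailSmall
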