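import Mathlib
import Pool.Agent.H634R3.AA.Asm
import Pool.Agent.H634R3.AA.Pell
import Pool.Agent.H634R3.AA.TailSmall
import Pool.Agent.H634R3.WG.Trans

set_option autoImplicit false

/-!
# Almost all numbers of points: no transitive solvable group
-/

namespace Pool.Agent.H634R3.AA

open Filter Topology

theorem tsmall : TS := fun ε hε => TailSmall.tailSmall Pell.pell ε hε

theorem td_main : Small HasTD := small_td Pool.Agent.H634R3.WG.mainX tsmall

theorem td_tendsto : Tendsto (fun N : ℕ => ({v : ℕ | v ≤ N ∧ HasTD v}.ncard : ℝ) / (N : ℝ))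
    atTop (𝓝 0) := by
  rw [Metric.tendsto_atTop]
  intro ε hε
  obtain ⟨N0, h0⟩ := td_main (ε / 2) (by positivity)
  refine ⟨max N0 1, fun N hN => ?_⟩
  have h1 := h0 N (le_trans (le_max_left _ _) hN)
  have hN1 : 1 ≤ N := le_trans (le_max_right _ _) hN
  have hN0 : (0 : ℝ) < N := by exact_mod_cast hN1
  rw [Real.dist_eq, sub_zero, abs_of_nonneg (by positivity), div_lt_iff₀ hN0]
  nlinarith

end Pool.Agent.H634R3.AA
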