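import Mathlib

/-!
Task TailBig of project H634-AA (proved by helper192 for helper634).
-/

set_option autoImplicit false

namespace Pool.Agent.H634R3.AA.TailBig192

/-- the values of one pair -/
def Sp (N r s : ℕ) : Set ℕ := {v | v ≤ N ∧ ∃ b c : ℕ, v = 1 + b * (r ^ 2 + s ^ 2) ∧
  r ^ 2 * b = 1 + c * (r ^ 2 + s ^ 2) ∧ r ^ 2 + s ^ 2 ≤ b}

open Classical in
lemma card_Sp (N r s : ℕ) (hr : 1 ≤ r) :
    ((Finset.range (N + 1)).filter (fun v => v ∈ Sp N r s)).card ≤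
      N / ((r ^ 2 + s ^ 2) * (r ^ 2 + s ^ 2)) := by
  set d := r ^ 2 + s ^ 2 with hd
  have hd0 : 0 < d := by positivity
  have hb : ∀ v b : ℕ, v = 1 + b * d → (v - 1) / d = b := by
    intro v b hv
    rw [hv, Nat.add_sub_cancel_left]
    exact Nat.mul_div_cancel b hd0
  calc ((Finset.range (N + 1)).filter (fun v => v ∈ Sp N r s)).card
      ≤ (Finset.Icc 1 (N / (d * d))).card := by
        apply Finset.card_le_card_of_injOn (fun v => (v - 1) / d / d)
        · intro v hv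
          have hv' := (Finset.mem_filter.1 hv).2
          obtain ⟨hvN, b, c, h1, h2, h3⟩ := hv'
          simp only [Finset.coe_Icc, Set.mem_Icc]
          rw [hb v b h1]
          constructor
          · exact (Nat.one_le_div_iff hd0).2 h3
          · rw [Nat.le_div_iff_mul_le (by positivity)]
            calc b / d * (d * d) = (b / d * d) * d := by ring
              _ ≤ b * d := Nat.mul_le_mul_right d (Nat.div_mul_le_self b d)
              _ ≤ N := by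
                have h5 : v = 1 + b * d := h1
                omega
        · intro v hv w hw hvw
          obtain ⟨-, b, c, h1, h2, h3⟩ := (Finset.mem_filter.1 hv).2
          obtain ⟨-, b', c', h1', h2', h3'⟩ := (Finset.mem_filter.1 hw).2
          simp only at hvw
          rw [hb v b h1, hb w b' h1'] at hvw
          have m1 : r ^ 2 * b ≡ 1 [MOD d] := by
            rw [h2]
            show (1 + c * d) % d = 1 % d
            exact Nat.add_mul_mod_self_right 1 c d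
          have m2 : r ^ 2 * b' ≡ 1 [MOD d] := by
            rw [h2']
            show (1 + c' * d) % d = 1 % d
            exact Nat.add_mul_mod_self_right 1 c' d
          have m3 : b ≡ b' [MOD d] := by
            have e1 : b * (r ^ 2 * b') ≡ b * 1 [MOD d] := m2.mul_left b
            have e2 : b' * (r ^ 2 * b) ≡ b' * 1 [MOD d] := m1.mul_left b'
            have e3 : b * (r ^ 2 * b') = b' * (r ^ 2 * b) := by ring
            rw [mul_one] at e1 e2
            rw [e3] at e1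
            exact e1.symm.trans e2
          have m4 : b % d = b' % d := m3
          have : b = b' := by
            rw [← Nat.div_add_mod b d, ← Nat.div_add_mod b' d, hvw, m4]
          rw [h1, h1', this]
    _ = N / (d * d) := by
        rw [Nat.card_Icc]
        exact Nat.add_sub_cancel _ _

theorem tailBig (ε : ℝ) (hε : 0 < ε) : ∃ D N0 : ℕ, ∀ N : ℕ, N0 ≤ N →
    ({v : ℕ | v ≤ N ∧ ∃ r s b c : ℕ, 1 ≤ r ∧ 1 ≤ s ∧ 1 ≤ b ∧ v = 1 + b * (r ^ 2 + s ^ 2) ∧
      r ^ 2 * b = 1 + c * (r ^ 2 + s ^ 2) ∧ D < r ^ 2 + s ^ 2 ∧ r ^ 2 + s ^ 2 ≤ b}.ncard : ℝ) ≤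
      ε * N := by
  classical
  have hs1 : Summable (fun n : ℕ => 1 / (n : ℝ) ^ 2) := Real.summable_one_div_nat_pow.2 (by norm_num)
  have hs2 : Summable (fun p : ℕ × ℕ => (1 / (p.1 : ℝ) ^ 2) * (1 / (p.2 : ℝ) ^ 2)) :=
    Summable.mul_of_nonneg hs1 hs1 (fun n => by positivity) (fun n => by positivity)
  obtain ⟨F, hF⟩ := summable_iff_vanishing_norm.1 hs2 ε hε
  refine ⟨∑ p ∈ F, (p.1 ^ 2 + p.2 ^ 2), 0, fun N _ => ?_⟩
  set D := ∑ p ∈ F, (p.1 ^ 2 + p.2 ^ 2) with hD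
  let P : Finset (ℕ × ℕ) := ((Finset.range (N + 1)) ×ˢ (Finset.range (N + 1))).filter
    (fun p => 1 ≤ p.1 ∧ 1 ≤ p.2 ∧ D < p.1 ^ 2 + p.2 ^ 2)
  have hPF : Disjoint P F := by
    rw [Finset.disjoint_left]
    intro p hp hpF
    have h1 := (Finset.mem_filter.1 hp).2.2.2
    have h2 : p.1 ^ 2 + p.2 ^ 2 ≤ D :=
      Finset.single_le_sum (f := fun p : ℕ × ℕ => p.1 ^ 2 + p.2 ^ 2) (fun _ _ => Nat.zero_le _) hpF
    omega
  have hsum := hF P hPF
  have hsum' : ∑ p ∈ P, (1 / (p.1 : ℝ) ^ 2) * (1 / (p.2 : ℝ) ^ 2) < ε :=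
    lt_of_le_of_lt (le_abs_self _) hsum
  set S : Set ℕ := {v : ℕ | v ≤ N ∧ ∃ r s b c : ℕ, 1 ≤ r ∧ 1 ≤ s ∧ 1 ≤ b ∧
    v = 1 + b * (r ^ 2 + s ^ 2) ∧
      r ^ 2 * b = 1 + c * (r ^ 2 + s ^ 2) ∧ D < r ^ 2 + s ^ 2 ∧ r ^ 2 + s ^ 2 ≤ b} with hS
  have hsub : S ⊆ ((P.biUnion fun p => (Finset.range (N + 1)).filter
      (fun v => v ∈ Sp N p.1 p.2) : Finset ℕ) : Set ℕ) := by
    rintro v ⟨hvN, r, s, b, c, hr, hs, hb, h1, h2, h3, h4⟩
    rw [Finset.mem_coe, Finset.mem_biUnion]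
    have hdN : r ^ 2 + s ^ 2 ≤ N := by
      have : 1 * (r ^ 2 + s ^ 2) ≤ b * (r ^ 2 + s ^ 2) := Nat.mul_le_mul_right _ hb
      omega
    have hrr : r ≤ r ^ 2 := by nlinarith
    have hss : s ≤ s ^ 2 := by nlinarith
    refine ⟨(r, s), Finset.mem_filter.2 ⟨Finset.mem_product.2 ⟨?_, ?_⟩, hr, hs, h3⟩, ?_⟩
    · simp only [Finset.mem_range]
      omega
    · simp only [Finset.mem_range]
      omega
    · refine Finset.mem_filter.2 ⟨Finset.mem_range.2 (by omega), hvN, b, c, h1, h2, h4⟩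
  have hcard : S.ncard ≤ ∑ p ∈ P, N / ((p.1 ^ 2 + p.2 ^ 2) * (p.1 ^ 2 + p.2 ^ 2)) := by
    calc S.ncard ≤ ((P.biUnion fun p => (Finset.range (N + 1)).filter
          (fun v => v ∈ Sp N p.1 p.2) : Finset ℕ) : Set ℕ).ncard :=
          Set.ncard_le_ncard hsub (Finset.finite_toSet _)
      _ = (P.biUnion fun p => (Finset.range (N + 1)).filter
          (fun v => v ∈ Sp N p.1 p.2)).card := Set.ncard_coe_finset _
      _ ≤ ∑ p ∈ P, ((Finset.range (N + 1)).filter (fun v => v ∈ Sp N p.1 p.2)).card :=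
          Finset.card_biUnion_le
      _ ≤ _ := Finset.sum_le_sum (fun p hp => card_Sp N p.1 p.2 (Finset.mem_filter.1 hp).2.1)
  calc (S.ncard : ℝ) ≤ ((∑ p ∈ P, N / ((p.1 ^ 2 + p.2 ^ 2) * (p.1 ^ 2 + p.2 ^ 2)) : ℕ) : ℝ) := by
        exact_mod_cast hcard
    _ = ∑ p ∈ P, ((N / ((p.1 ^ 2 + p.2 ^ 2) * (p.1 ^ 2 + p.2 ^ 2)) : ℕ) : ℝ) := by
        push_cast
        rfl
    _ ≤ ∑ p ∈ P, (N : ℝ) * ((1 / (p.1 : ℝ) ^ 2) * (1 / (p.2 : ℝ) ^ 2)) := by
        apply Finset.sum_le_sum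
        intro p hp
        obtain ⟨h1, h2, -⟩ := (Finset.mem_filter.1 hp).2
        refine le_trans Nat.cast_div_le ?_
        push_cast
        have hp1 : (0 : ℝ) < (p.1 : ℝ) := by exact_mod_cast h1
        have hp2 : (0 : ℝ) < (p.2 : ℝ) := by exact_mod_cast h2
        rw [one_div_mul_one_div, ← div_eq_mul_one_div]
        apply div_le_div_of_nonneg_left (by positivity) (by positivity)
        nlinarith [sq_nonneg ((p.1 : ℝ) ^ 2), sq_nonneg ((p.2 : ℝ) ^ 2),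
          mul_pos (pow_pos hp1 2) (pow_pos hp2 2)]
    _ = (N : ℝ) * ∑ p ∈ P, ((1 / (p.1 : ℝ) ^ 2) * (1 / (p.2 : ℝ) ^ 2)) := by
        rw [Finset.mul_sum]
    _ ≤ N * ε := mul_le_mul_of_nonneg_left hsum'.le (Nat.cast_nonneg _)
    _ = ε * N := mul_comm _ _

end Pool.Agent.H634R3.AA.TailBig192
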